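import Mathlib

set_option linter.unusedSectionVars false

open Cardinal Set Function

namespace Pool.Agent.LibAdmissible

/-! ### Patterns and realizations -/

/-- A finite pattern over `V`: a number `n` of points, required edges between the points, and for
every point a finite set of vertices of `V` which must be adjacent to it. -/
def Pat (V : Type) : Type := Σ n : ℕ, (Fin n → Fin n → Prop) × (Fin n → Finset V)

/-- Realizations of a pattern. -/
def Real {V : Type} (G : SimpleGraph V) (p : Pat V) : Set (Fin p.1 → V) :=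
  {a | Injective a ∧ (∀ i j, p.2.1 i j → G.Adj (a i) (a j)) ∧ ∀ i, ∀ u ∈ p.2.2 i, G.Adj (a i) u}

lemma exists_max {V : Type} (G : SimpleGraph V) (p : Pat V) :
    ∃ M : Set (Fin p.1 → V), M ⊆ Real G p ∧ (M.Pairwise fun a b => ∀ i j, a i ≠ b j) ∧
      ∀ a ∈ Real G p, 1 ≤ p.1 → ∃ b ∈ M, ∃ i j, a i = b j := by
  obtain ⟨M, hM⟩ := zorn_subset
    {M : Set (Fin p.1 → V) | M ⊆ Real G p ∧ (M.Pairwise fun a b => ∀ i j, a i ≠ b j)} (by
      intro c hc hchain
      refine ⟨⋃₀ c, ⟨?_, ?_⟩, fun s hs => subset_sUnion_of_mem hs⟩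
      · exact sUnion_subset fun s hs => (hc hs).1
      · rw [Set.pairwise_sUnion hchain.directedOn]
        intro s hs
        exact (hc hs).2)
  refine ⟨M, hM.prop.1, hM.prop.2, ?_⟩
  intro a ha hn
  by_contra hcon
  push Not at hcon
  have hsub : M ⊆ insert a M := subset_insert a M
  have hins : insert a M ∈
      {M : Set (Fin p.1 → V) | M ⊆ Real G p ∧ (M.Pairwise fun a b => ∀ i j, a i ≠ b j)} := by
    refine ⟨?_, ?_⟩
    · exact insert_subset ha hM.prop.1
    · rw [Set.pairwise_insert]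
      refine ⟨hM.prop.2, ?_⟩
      intro b hb _
      exact ⟨fun i j => hcon b hb i j, fun i j h => hcon b hb j i h.symm⟩
  have haM : a ∈ M := (hM.le_of_ge hins hsub) (mem_insert a M)
  exact hcon a haM ⟨0, hn⟩ ⟨0, hn⟩ rfl

/-- A maximal family of pairwise disjoint realizations. -/
noncomputable def Mfam {V : Type} (G : SimpleGraph V) (p : Pat V) : Set (Fin p.1 → V) :=
  (exists_max G p).choose

lemma Mfam_sub {V : Type} (G : SimpleGraph V) (p : Pat V) : Mfam G p ⊆ Real G p :=
  (exists_max G p).choose_spec.1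

lemma Mfam_disj {V : Type} (G : SimpleGraph V) (p : Pat V) :
    (Mfam G p).Pairwise fun a b => ∀ i j, a i ≠ b j := (exists_max G p).choose_spec.2.1

lemma Mfam_max {V : Type} (G : SimpleGraph V) (p : Pat V) :
    ∀ a ∈ Real G p, 1 ≤ p.1 → ∃ b ∈ Mfam G p, ∃ i j, a i = b j :=
  (exists_max G p).choose_spec.2.2

lemma mk_finset_le' (Z : Type) (κ : Cardinal.{0}) (hκ : ℵ₀ ≤ κ) (hZ : #Z ≤ κ) :
    #(Finset Z) ≤ κ := by
  rcases finite_or_infinite Z with h | h
  · exact (lt_aleph0_of_finite _).le.trans hκ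
  · rw [mk_finset_of_infinite]
    exact hZ

lemma mk_pat_le (Z : Type) (κ : Cardinal.{0}) (hκ : ℵ₀ ≤ κ) (hZ : #Z ≤ κ) : #(Pat Z) ≤ κ := by
  unfold Pat
  rw [mk_sigma]
  calc Cardinal.sum (fun n : ℕ => #((Fin n → Fin n → Prop) × (Fin n → Finset Z)))
      ≤ Cardinal.sum (fun _ : ℕ => κ) := by
        apply Cardinal.sum_le_sum
        intro n
        rw [mk_prod, lift_id, lift_id]
        apply mul_le_of_le hκ
        · exact (lt_aleph0_of_finite _).le.trans hκ
        · rw [mk_pi, prod_const', mk_fin]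
          refine le_trans ?_ (power_nat_le (n := n) hκ)
          exact power_le_power_right (mk_finset_le' Z κ hκ hZ)
    _ = ℵ₀ * κ := by rw [sum_const', mk_nat]
    _ ≤ κ := mul_le_of_le hκ hκ le_rfl

/-! ### Closure -/

/-- the vertices on which the pattern depends -/
def SuppIn {V : Type} (p : Pat V) (Z : Set V) : Prop := ∀ i, ∀ u ∈ p.2.2 i, u ∈ Z

/-- one closure step -/
def stepSet {V : Type} (G : SimpleGraph V) (κ : Cardinal.{0}) (Z : Set V) : Set V :=
  Z ∪ {v | ∃ p : Pat V, SuppIn p Z ∧ #(Mfam G p) ≤ κ ∧ ∃ b ∈ Mfam G p, ∃ i, b i = v}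

lemma stepSet_mono {V : Type} (G : SimpleGraph V) {κ κ' : Cardinal.{0}} (hκ : κ ≤ κ')
    {Z Z' : Set V} (hZ : Z ⊆ Z') : stepSet G κ Z ⊆ stepSet G κ' Z' := by
  rintro v (hv | ⟨p, hp, hM, b, hb, i, hi⟩)
  · exact Or.inl (hZ hv)
  · exact Or.inr ⟨p, fun i u hu => hZ (hp i u hu), hM.trans hκ, b, hb, i, hi⟩

/-- push a pattern over a subset to a pattern over `V` -/
def Pat.push {V : Type} {Z : Set V} (q : Pat Z) : Pat V :=
  ⟨q.1, q.2.1, fun i => (q.2.2 i).map (Embedding.subtype _)⟩

lemma mk_stepSet_le {V : Type} (G : SimpleGraph V) (κ : Cardinal.{0}) (hκ : ℵ₀ ≤ κ)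
    (Z : Set V) (hZ : #Z ≤ κ) : #(stepSet G κ Z) ≤ κ := by
  classical
  have h1 : {v | ∃ p : Pat V, SuppIn p Z ∧ #(Mfam G p) ≤ κ ∧ ∃ b ∈ Mfam G p, ∃ i, b i = v} ⊆
      ⋃ q : Pat Z, (if #(Mfam G q.push) ≤ κ then
        ⋃ b : Mfam G q.push, range b.1 else ∅) := by
    rintro v ⟨p, hp, hM, b, hb, i, hi⟩
    have hpq : ∃ q : Pat Z, q.push = p := by
      refine ⟨⟨p.1, p.2.1, fun i => (p.2.2 i).subtype (· ∈ Z)⟩, ?_⟩
      obtain ⟨n, E, R⟩ := p
      simp only [Pat.push]
      congr 2
      funext i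
      ext u
      simp only [Finset.mem_map, Finset.mem_subtype, Embedding.subtype_apply, Subtype.exists,
        exists_and_left, exists_prop, exists_eq_right_right]
      constructor
      · rintro ⟨h, _⟩
        exact h
      · intro h
        exact ⟨h, hp i u h⟩
    obtain ⟨q, rfl⟩ := hpq
    rw [mem_iUnion]
    refine ⟨q, ?_⟩
    rw [if_pos hM, mem_iUnion]
    exact ⟨⟨b, hb⟩, i, hi⟩
  refine (mk_union_le _ _).trans (add_le_of_le hκ hZ ?_)
  refine (mk_le_mk_of_subset h1).trans ?_
  refine (mk_iUnion_le_sum_mk).trans ?_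
  calc Cardinal.sum (fun q : Pat Z => #(if #(Mfam G q.push) ≤ κ then
        ⋃ b : Mfam G q.push, range b.1 else ∅ : Set V))
      ≤ Cardinal.sum (fun _ : Pat Z => κ) := by
        apply Cardinal.sum_le_sum
        intro q
        by_cases hM : #(Mfam G q.push) ≤ κ
        · rw [if_pos hM]
          refine (mk_iUnion_le_sum_mk).trans ?_
          calc Cardinal.sum (fun b : Mfam G q.push => #(range b.1))
              ≤ Cardinal.sum (fun _ : Mfam G q.push => κ) := by
                apply Cardinal.sum_le_sum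
                intro b
                exact (lt_aleph0_of_finite _).le.trans hκ
            _ = #(Mfam G q.push) * κ := by rw [sum_const']
            _ ≤ κ := mul_le_of_le hκ hM le_rfl
        · rw [if_neg hM]
          simp
    _ = #(Pat Z) * κ := by rw [sum_const']
    _ ≤ κ := mul_le_of_le hκ (mk_pat_le Z κ hκ hZ) le_rfl

/-- closure of a set -/
def cl {V : Type} (G : SimpleGraph V) (κ : Cardinal.{0}) (Z : Set V) : Set V :=
  ⋃ n : ℕ, (stepSet G κ)^[n] Z

lemma iterate_mono_nat {V : Type} (G : SimpleGraph V) (κ : Cardinal.{0}) (Z : Set V) {m n : ℕ}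
    (h : m ≤ n) : (stepSet G κ)^[m] Z ⊆ (stepSet G κ)^[n] Z := by
  induction n, h using Nat.le_induction with
  | base => exact subset_rfl
  | succ n _ ih =>
    rw [iterate_succ_apply']
    exact ih.trans subset_union_left

lemma subset_cl {V : Type} (G : SimpleGraph V) (κ : Cardinal.{0}) (Z : Set V) : Z ⊆ cl G κ Z :=
  fun _ hv => mem_iUnion.2 ⟨0, hv⟩

lemma cl_mono {V : Type} (G : SimpleGraph V) {κ κ' : Cardinal.{0}} (hκ : κ ≤ κ')
    {Z Z' : Set V} (hZ : Z ⊆ Z') : cl G κ Z ⊆ cl G κ' Z' := by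
  apply iUnion_mono
  intro n
  induction n with
  | zero => exact hZ
  | succ n ih =>
    rw [iterate_succ_apply', iterate_succ_apply']
    exact stepSet_mono G hκ ih

lemma mk_cl_le {V : Type} (G : SimpleGraph V) (κ : Cardinal.{0}) (hκ : ℵ₀ ≤ κ)
    (Z : Set V) (hZ : #Z ≤ κ) : #(cl G κ Z) ≤ κ := by
  have h : ∀ n : ℕ, #((stepSet G κ)^[n] Z : Set V) ≤ κ := by
    intro n
    induction n with
    | zero => exact hZ
    | succ n ih =>
      rw [iterate_succ_apply']
      exact mk_stepSet_le G κ hκ _ ih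
  refine (mk_iUnion_le_sum_mk).trans ?_
  calc Cardinal.sum (fun n : ℕ => #((stepSet G κ)^[n] Z : Set V))
      ≤ Cardinal.sum (fun _ : ℕ => κ) := Cardinal.sum_le_sum _ _ h
    _ = ℵ₀ * κ := by rw [sum_const', mk_nat]
    _ ≤ κ := mul_le_of_le hκ hκ le_rfl

lemma cl_closed {V : Type} (G : SimpleGraph V) (κ : Cardinal.{0}) (Z : Set V) (p : Pat V)
    (hp : SuppIn p (cl G κ Z)) (hM : #(Mfam G p) ≤ κ) (b : Fin p.1 → V) (hb : b ∈ Mfam G p)
    (i : Fin p.1) : b i ∈ cl G κ Z := by
  classical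
  have h1 : ∀ i, ∀ u : p.2.2 i, ∃ n : ℕ, u.1 ∈ (stepSet G κ)^[n] Z := fun i u =>
    mem_iUnion.1 (hp i u.1 u.2)
  choose N hN using h1
  obtain ⟨m, hm⟩ : ∃ m : ℕ, ∀ i, ∀ u : p.2.2 i, N i u ≤ m := by
    refine ⟨∑ i, ∑ u : p.2.2 i, N i u, ?_⟩
    intro i u
    calc N i u ≤ ∑ u : p.2.2 i, N i u :=
          Finset.single_le_sum (f := fun u => N i u) (fun _ _ => Nat.zero_le _) (Finset.mem_univ u)
      _ ≤ ∑ i, ∑ u : p.2.2 i, N i u :=
          Finset.single_le_sum (f := fun i => ∑ u : p.2.2 i, N i u) (fun _ _ => Nat.zero_le _)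
            (Finset.mem_univ i)
  refine mem_iUnion.2 ⟨m + 1, ?_⟩
  rw [iterate_succ_apply']
  refine Or.inr ⟨p, ?_, hM, b, hb, i, rfl⟩
  intro i u hu
  exact iterate_mono_nat G κ Z (hm i ⟨u, hu⟩) (hN i ⟨u, hu⟩)

/-- abundance: a realization outside a closed set can be moved away from any small set -/
lemma abundance {V : Type} (G : SimpleGraph V) (κ : Cardinal.{0}) (Z : Set V)
    (hX : #(cl G κ Z) ≤ κ) (hκ : ℵ₀ ≤ κ) (W : Set V) (hW : #W ≤ κ) (p : Pat V)
    (hp : SuppIn p (cl G κ Z)) (a : Fin p.1 → V) (ha : a ∈ Real G p)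
    (ha' : ∀ i, a i ∉ cl G κ Z) :
    ∃ b ∈ Real G p, ∀ i, b i ∉ cl G κ Z ∧ b i ∉ W := by
  classical
  rcases Nat.eq_zero_or_pos p.1 with h0 | h0
  · refine ⟨a, ha, fun i => ?_⟩
    exact absurd i.2 (by omega)
  have hM : ¬ #(Mfam G p) ≤ κ := by
    intro hM
    obtain ⟨b, hb, i, j, hij⟩ := Mfam_max G p a ha h0
    apply ha' i
    rw [hij]
    exact cl_closed G κ Z p hp hM b hb j
  by_contra hcon
  push Not at hcon
  apply hM
  have h1 : ∀ b : Mfam G p, ∃ i, b.1 i ∈ cl G κ Z ∪ W := by
    intro b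
    obtain ⟨i, hi⟩ := hcon b.1 (Mfam_sub G p b.2)
    refine ⟨i, ?_⟩
    by_cases h : b.1 i ∈ cl G κ Z
    · exact Or.inl h
    · exact Or.inr (hi h)
  choose f hf using h1
  have hinj : Injective (fun b : Mfam G p => (⟨b.1 (f b), hf b⟩ : (cl G κ Z ∪ W : Set V))) := by
    intro b b' h
    by_contra hne
    have hne' : b.1 ≠ b'.1 := fun h' => hne (Subtype.ext h')
    have := Mfam_disj G p b.2 b'.2 hne' (f b) (f b')
    exact this (by simpa using h)
  calc #(Mfam G p) ≤ #(cl G κ Z ∪ W : Set V) := mk_le_of_injective hinj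
    _ ≤ #(cl G κ Z) + #W := mk_union_le _ _
    _ ≤ κ := add_le_of_le hκ hX hW

/-! ### The tree graph -/

section Tree

variable {V : Type} [LinearOrder V] [WellFoundedLT V] (G : SimpleGraph V) (Θ : Type)

/-- bound for the size of the closed sets -/
noncomputable def kap (v : V) : Cardinal.{0} := max #Θ #(Iic v)

lemma kap_mono {u v : V} (h : u ≤ v) : kap Θ u ≤ kap Θ v :=
  max_le_max le_rfl (mk_le_mk_of_subset (Iic_subset_Iic.2 h))

/-- the closed sets -/
def Xs (v : V) : Set V := cl G (kap Θ v) (Iic v)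

lemma Xs_mono {u v : V} (h : u ≤ v) : Xs G Θ u ⊆ Xs G Θ v :=
  cl_mono G (kap_mono Θ h) (Iic_subset_Iic.2 h)

lemma mem_Xs_self (v : V) : v ∈ Xs G Θ v := subset_cl _ _ _ (le_refl v)

/-- the level of a vertex -/
noncomputable def rho (u : V) : V :=
  (wellFounded_lt (α := V)).min {v | u ∈ Xs G Θ v} ⟨u, mem_Xs_self G Θ u⟩

lemma mem_Xs_rho (u : V) : u ∈ Xs G Θ (rho G Θ u) :=
  (wellFounded_lt (α := V)).min_mem {v | u ∈ Xs G Θ v} ⟨u, mem_Xs_self G Θ u⟩

lemma rho_le_iff {u v : V} : rho G Θ u ≤ v ↔ u ∈ Xs G Θ v := by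
  constructor
  · intro h
    exact Xs_mono G Θ h (mem_Xs_rho G Θ u)
  · intro h
    exact not_lt.1 ((wellFounded_lt (α := V)).not_lt_min {v | u ∈ Xs G Θ v} h)

variable [Infinite Θ]

/-- restriction of a history -/
noncomputable def restr (w : V) (s : V → Θ) : V → Θ :=
  fun u => open Classical in if rho G Θ u < w then s u else Classical.arbitrary Θ

lemma restr_restr {w w' : V} (h : w ≤ w') (s : V → Θ) :
    restr G Θ w (restr G Θ w' s) = restr G Θ w s := by
  funext u
  unfold restr
  by_cases h1 : rho G Θ u < w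
  · rw [if_pos h1, if_pos h1, if_pos (lt_of_lt_of_le h1 h)]
  · rw [if_neg h1, if_neg h1]

/-- the vertices of the tree graph -/
def Node : Type :=
  {x : V × (V → Θ) // (∃ β, β < rho G Θ x.1) ∧ restr G Θ (rho G Θ x.1) x.2 = x.2}

/-- candidates for lower neighbours of colour `i` -/
def Cand (v : V) (s : V → Θ) (i : Θ) (u : V) : Prop :=
  G.Adj u v ∧ rho G Θ u < rho G Θ v ∧ (∃ β, β < rho G Θ u) ∧ s u = i

/-- the chosen lower neighbour of colour `i` -/
noncomputable def dch (v : V) (s : V → Θ) (i : Θ) : V :=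
  open Classical in if h : ∃ u, Cand G Θ v s i u then h.choose else v

lemma dch_spec {v : V} {s : V → Θ} {i : Θ} (h : ∃ u, Cand G Θ v s i u) :
    Cand G Θ v s i (dch G Θ v s i) := by
  unfold dch
  rw [dif_pos h]
  exact h.choose_spec

/-- `u` is a chosen lower neighbour of the node `x` -/
def Dm (u : V) (x : Node G Θ) : Prop :=
  Cand G Θ x.1.1 x.1.2 (x.1.2 u) u ∧ u = dch G Θ x.1.1 x.1.2 (x.1.2 u)

/-- `y` is a lower neighbour of `x` -/
def low (y x : Node G Θ) : Prop :=
  y.1.2 = restr G Θ (rho G Θ y.1.1) x.1.2 ∧ Dm G Θ y.1.1 x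

lemma low_rho {y x : Node G Θ} (h : low G Θ y x) : rho G Θ y.1.1 < rho G Θ x.1.1 := h.2.1.2.1

/-- the tree graph -/
def treeGraph : SimpleGraph (Node G Θ) where
  Adj x y := low G Θ x y ∨ low G Θ y x
  symm := ⟨fun x y h => h.symm⟩
  loopless := ⟨fun x h => by
    rcases h with h | h <;> exact lt_irrefl _ (low_rho G Θ h)⟩

/-! #### upper bound for the chromatic number -/

lemma treeGraph_colorable (C : Type) (hC : #Θ < #C) : Nonempty ((treeGraph G Θ).Coloring C) := by
  classical
  have : Nonempty C := by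
    by_contra h
    rw [not_nonempty_iff] at h
    rw [mk_eq_zero C] at hC
    exact not_lt_bot hC
  let r : Node G Θ → Node G Θ → Prop := fun y x => rho G Θ y.1.1 < rho G Θ x.1.1
  have hwf : WellFounded r := InvImage.wf (fun x : Node G Θ => rho G Θ x.1.1) wellFounded_lt
  -- colours used by the lower neighbours
  have key : ∀ (x : Node G Θ) (f : (y : Node G Θ) → r y x → C),
      ∃ c : C, ∀ y (h : low G Θ y x), f y (low_rho G Θ h) ≠ c := by
    intro x f
    by_contra hcon
    push Not at hcon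
    choose g hg hg' using hcon
    have hinj : Injective (fun c : C => x.1.2 (g c).1.1) := by
      intro c c' hcc
      have h1 := (hg c).2.2
      have h2 := (hg c').2.2
      simp only at hcc
      rw [← hcc, ← h1] at h2
      have h3 : g c = g c' := by
        apply Subtype.ext
        apply Prod.ext
        · exact h2.symm
        · rw [(hg c).1, (hg c').1, h2]
      rw [← hg' c, ← hg' c']
      congr 1
    exact absurd (mk_le_of_injective hinj) (not_le.2 hC)
  let F : (x : Node G Θ) → ((y : Node G Θ) → r y x → C) → C := fun x f => (key x f).choose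
  let c : Node G Θ → C := hwf.fix F
  have hc : ∀ x, c x = F x (fun y _ => c y) := fun x => hwf.fix_eq F x
  have hlow : ∀ y x, low G Θ y x → c y ≠ c x := by
    intro y x h
    rw [hc x]
    exact (key x (fun y _ => c y)).choose_spec y h
  refine ⟨SimpleGraph.Coloring.mk c ?_⟩
  intro x y h
  rcases h with h | h
  · exact hlow x y h
  · exact (hlow y x h).symm

/-! #### lower bound for the chromatic number -/

lemma treeGraph_not_colorable (hmin : ∀ S : Set V, #S < #V → Nonempty ((G.induce S).Coloring Θ))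
    (hsmall : ∀ v : V, kap Θ v < #V) (hG : IsEmpty (G.Coloring Θ)) :
    IsEmpty ((treeGraph G Θ).Coloring Θ) := by
  classical
  constructor
  intro c
  apply hG.false
  -- the colouring along a branch
  let r : V → V → Prop := fun u v => rho G Θ u < rho G Θ v
  have hwf : WellFounded r := InvImage.wf (rho G Θ) wellFounded_lt
  let Fs : (v : V) → ((u : V) → r u v → Θ) → Θ := fun v f =>
    if hv : ∃ β, β < rho G Θ v then
      c ⟨(v, fun u => if h : rho G Θ u < rho G Θ v then f u h else Classical.arbitrary Θ),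
        hv, by
          funext u
          simp only [restr]
          by_cases h : rho G Θ u < rho G Θ v
          · rw [if_pos h]
          · rw [if_neg h, dif_neg h]⟩
    else Classical.arbitrary Θ
  let F : V → Θ := hwf.fix Fs
  have hF : ∀ v (hv : ∃ β, β < rho G Θ v),
      F v = c ⟨(v, restr G Θ (rho G Θ v) F), hv, restr_restr G Θ le_rfl F⟩ := by
    intro v hv
    have h1 : F v = Fs v (fun u _ => F u) := hwf.fix_eq Fs v
    rw [h1]
    simp only [Fs]
    rw [dif_pos hv]
    congr 1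
  -- pieces are colourable
  have hX : ∀ v : V, Nonempty ((G.induce (Xs G Θ v)).Coloring Θ) := by
    intro v
    apply hmin
    refine lt_of_le_of_lt ?_ (hsmall v)
    apply mk_cl_le
    · exact (aleph0_le_mk Θ).trans (le_max_left _ _)
    · exact le_max_right _ _
  let cX : (v : V) → (G.induce (Xs G Θ v)).Coloring Θ := fun v => (hX v).some
  let cc : V → V → Θ := fun w v => if h : v ∈ Xs G Θ w then cX w ⟨v, h⟩ else Classical.arbitrary Θ
  have hcc : ∀ w u v, G.Adj u v → u ∈ Xs G Θ w → v ∈ Xs G Θ w → cc w u ≠ cc w v := by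
    intro w u v huv hu hv
    simp only [cc]
    rw [dif_pos hu, dif_pos hv]
    have h5 : (G.induce (Xs G Θ w)).Adj ⟨u, hu⟩ ⟨v, hv⟩ := huv
    exact (cX w).valid h5
  have hprop : ∀ u v, G.Adj u v → rho G Θ u < rho G Θ v → (∃ β, β < rho G Θ u) → F u ≠ F v := by
    intro u v huv hlt hu heq
    have hv : ∃ β, β < rho G Θ v := ⟨_, hlt⟩
    set s := restr G Θ (rho G Θ v) F with hs
    have hsu : ∀ u, rho G Θ u < rho G Θ v → s u = F u := by
      intro u h
      rw [hs]
      unfold restr
      rw [if_pos h]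
    have hex : ∃ u, Cand G Θ v s (F v) u := ⟨u, huv, hlt, hu, by rw [hsu u hlt, heq]⟩
    have hd := dch_spec G Θ hex
    set u' := dch G Θ v s (F v) with hu'
    have hsu' : s u' = F v := hd.2.2.2
    have hFu' : F u' = F v := by rw [← hsu', hsu u' hd.2.1]
    have hadj : (treeGraph G Θ).Adj
        ⟨(u', restr G Θ (rho G Θ u') F), hd.2.2.1, restr_restr G Θ le_rfl F⟩
        ⟨(v, s), hv, restr_restr G Θ le_rfl F⟩ := by
      left
      refine ⟨?_, ?_, ?_⟩
      · change restr G Θ (rho G Θ u') F = restr G Θ (rho G Θ u') s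
        rw [hs, restr_restr G Θ hd.2.1.le]
      · change Cand G Θ v s (s u') u'
        rw [hsu']
        exact hd
      · change u' = dch G Θ v s (s u')
        rw [hsu']
    apply c.valid hadj
    rw [← hF u' hd.2.2.1, ← hF v hv]
    exact hFu'
  have e : Bool × Θ × Θ ↪ Θ := by
    have : #(Bool × Θ × Θ) ≤ #Θ := by
      simp only [mk_prod, lift_id]
      have h0 := aleph0_le_mk Θ
      exact mul_le_of_le h0 ((lt_aleph0_of_finite _).le.trans h0) (mul_le_of_le h0 le_rfl le_rfl)
    exact (Cardinal.le_def _ _).1 this |>.some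
  refine SimpleGraph.Coloring.mk (fun v => e (decide (∃ β, β < rho G Θ v), F v,
    cc (rho G Θ v) v)) ?_
  intro u v huv h
  have h1 := e.injective h
  simp only [Prod.mk.injEq, decide_eq_decide] at h1
  obtain ⟨h2, h3, h4⟩ := h1
  rcases lt_trichotomy (rho G Θ u) (rho G Θ v) with hlt | heq | hgt
  · exact hprop u v huv hlt (h2.2 ⟨_, hlt⟩) h3
  · have hv : v ∈ Xs G Θ (rho G Θ u) := by rw [heq]; exact mem_Xs_rho G Θ v
    rw [← heq] at h4
    exact hcc _ u v huv (mem_Xs_rho G Θ u) hv h4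
  · exact hprop v u huv.symm hgt (h2.1 ⟨_, hgt⟩) h3.symm

/-! #### finite subgraphs -/

lemma node_ext {x y : Node G Θ} (h1 : x.1.1 = y.1.1) (h2 : x.1.2 = y.1.2) : x = y :=
  Subtype.ext (Prod.ext h1 h2)

/-- the conditions on an embedding of a finite set of nodes -/
def Good (Φ : Finset (Node G Θ)) (R : Finset V) (e : Node G Θ → V) : Prop :=
  Set.InjOn e Φ ∧ (∀ x ∈ Φ, ∀ y ∈ Φ, low G Θ y x → G.Adj (e x) (e y)) ∧
    ∀ x ∈ Φ, ∀ u ∈ R, Dm G Θ u x → G.Adj (e x) u

lemma good_move (Φ : Finset (Node G Θ)) (R : Finset V) (β : V) (hR : ∀ u ∈ R, u ∈ Xs G Θ β)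
    (W : Set V) (hW : #W ≤ kap Θ β) (e : Node G Θ → V) (he : Good G Θ Φ R e)
    (heX : ∀ x ∈ Φ, e x ∉ Xs G Θ β) :
    ∃ e' : Node G Θ → V, Good G Θ Φ R e' ∧ ∀ x ∈ Φ, e' x ∉ Xs G Θ β ∧ e' x ∉ W := by
  classical
  let σ : Fin Φ.card ≃ Φ := Φ.equivFin.symm
  let p : Pat V := ⟨Φ.card, fun i j => low G Θ (σ j).1 (σ i).1,
    fun i => R.filter (fun u => Dm G Θ u (σ i).1)⟩
  have hreal : (fun i => e (σ i).1) ∈ Real G p := by
    refine ⟨?_, ?_, ?_⟩
    · intro i j h
      exact σ.injective (Subtype.ext (he.1 (σ i).2 (σ j).2 h))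
    · intro i j h
      exact he.2.1 _ (σ i).2 _ (σ j).2 h
    · intro i u hu
      have hu' : u ∈ R.filter (fun u => Dm G Θ u (σ i).1) := hu
      rw [Finset.mem_filter] at hu'
      exact he.2.2 _ (σ i).2 u hu'.1 hu'.2
  have hsupp : SuppIn p (cl G (kap Θ β) (Iic β)) := by
    intro i u hu
    have hu' : u ∈ R.filter (fun u => Dm G Θ u (σ i).1) := hu
    rw [Finset.mem_filter] at hu'
    exact hR u hu'.1
  have hκ : ℵ₀ ≤ kap Θ β := (aleph0_le_mk Θ).trans (le_max_left _ _)
  have hX : #(cl G (kap Θ β) (Iic β)) ≤ kap Θ β := mk_cl_le G _ hκ _ (le_max_right _ _)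
  obtain ⟨b, hb, hb'⟩ := abundance G (kap Θ β) (Iic β) hX hκ W hW p hsupp _ hreal
    (fun i => heX _ (σ i).2)
  let e' : Node G Θ → V := fun x => if h : x ∈ Φ then b (σ.symm ⟨x, h⟩) else x.1.1
  have he' : ∀ x (h : x ∈ Φ), e' x = b (σ.symm ⟨x, h⟩) := fun x h => dif_pos h
  refine ⟨e', ⟨?_, ?_, ?_⟩, ?_⟩
  · intro x hx y hy h
    rw [he' x hx, he' y hy] at h
    have h1 := σ.symm.injective (hb.1 h)
    exact congrArg Subtype.val h1
  · intro x hx y hy h
    rw [he' x hx, he' y hy]
    apply hb.2.1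
    change low G Θ (σ (σ.symm ⟨y, hy⟩)).1 (σ (σ.symm ⟨x, hx⟩)).1
    rw [Equiv.apply_symm_apply, Equiv.apply_symm_apply]
    exact h
  · intro x hx u hu h
    rw [he' x hx]
    apply hb.2.2
    change u ∈ R.filter (fun u => Dm G Θ u (σ (σ.symm ⟨x, hx⟩)).1)
    rw [Finset.mem_filter, Equiv.apply_symm_apply]
    exact ⟨hu, h⟩
  · intro x hx
    rw [he' x hx]
    exact hb' _

lemma embed_aux (n : ℕ) : ∀ (Φ : Finset (Node G Θ)), Φ.card = n → ∀ (β : V) (R : Finset V)
    (W : Set V), (∀ u ∈ R, u ∈ Xs G Θ β) → #W ≤ kap Θ β → (∀ x ∈ Φ, β < rho G Θ x.1.1) →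
    ∃ e : Node G Θ → V, Good G Θ Φ R e ∧ ∀ x ∈ Φ, e x ∉ Xs G Θ β ∧ e x ∉ W := by
  classical
  induction n using Nat.strong_induction_on with
  | _ n ih =>
    intro Φ hΦ β R W hR hW hβ
    rcases Φ.eq_empty_or_nonempty with h0 | hne
    · subst h0
      exact ⟨fun x => x.1.1, ⟨by simp, by simp, by simp⟩, by simp⟩
    obtain ⟨x0, hx0, hx0min⟩ := Finset.exists_min_image Φ (fun x => rho G Θ x.1.1) hne
    set β0 := rho G Θ x0.1.1 with hβ0
    have hββ0 : β < β0 := hβ x0 hx0
    let hist : Node G Θ → (V → Θ) := fun x => restr G Θ β0 x.1.2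
    have hlow : ∀ x ∈ Φ, ∀ y ∈ Φ, low G Θ y x → hist y = hist x := by
      intro x hx y hy h
      simp only [hist]
      rw [h.1, restr_restr G Θ (hx0min y hy)]
    let Φ1 := Φ.filter (fun x => hist x = hist x0)
    let Φ2 := Φ.filter (fun x => ¬ hist x = hist x0)
    have hcard : Φ1.card + Φ2.card = n := by
      rw [← hΦ]
      exact Finset.card_filter_add_card_filter_not _
    have hx01 : x0 ∈ Φ1 := Finset.mem_filter.2 ⟨hx0, rfl⟩
    have hΦ1pos : 0 < Φ1.card := Finset.card_pos.2 ⟨x0, hx01⟩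
    by_cases hΦ2 : Φ2.card = 0
    · -- a single class
      have hall : ∀ x ∈ Φ, hist x = hist x0 := by
        intro x hx
        by_contra h
        have : x ∈ Φ2 := Finset.mem_filter.2 ⟨hx, h⟩
        rw [Finset.card_eq_zero] at hΦ2
        rw [hΦ2] at this
        exact absurd this (Finset.notMem_empty x)
      let Φ' := Φ.filter (fun x => β0 < rho G Θ x.1.1)
      have hΦ' : Φ'.card < n := by
        rw [← hΦ]
        apply Finset.card_lt_card
        refine ⟨Finset.filter_subset _ _, fun h => ?_⟩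
        have := Finset.mem_filter.1 (h hx0)
        exact lt_irrefl _ this.2
      let Φ0 := Φ.filter (fun x => rho G Θ x.1.1 = β0)
      let R' := R ∪ Φ0.image (fun x => x.1.1)
      have hR' : ∀ u ∈ R', u ∈ Xs G Θ β0 := by
        intro u hu
        rw [Finset.mem_union, Finset.mem_image] at hu
        rcases hu with hu | ⟨x, hx, rfl⟩
        · exact Xs_mono G Θ hββ0.le (hR u hu)
        · rw [← rho_le_iff]
          exact (Finset.mem_filter.1 hx).2.le
      obtain ⟨e', he', heX'⟩ := ih Φ'.card hΦ' Φ' rfl β0 R' ∅ hR' (by simp)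
        (fun x hx => (Finset.mem_filter.1 hx).2)
      let e : Node G Θ → V := fun x => if rho G Θ x.1.1 = β0 then x.1.1 else e' x
      have heq : ∀ x, rho G Θ x.1.1 = β0 → e x = x.1.1 := fun x h => if_pos h
      have hne' : ∀ x, ¬ rho G Θ x.1.1 = β0 → e x = e' x := fun x h => if_neg h
      have hmem' : ∀ x ∈ Φ, ¬ rho G Θ x.1.1 = β0 → x ∈ Φ' := fun x hx h =>
        Finset.mem_filter.2 ⟨hx, lt_of_le_of_ne (hx0min x hx) (Ne.symm h)⟩
      have hsame : ∀ x ∈ Φ, ∀ y ∈ Φ, rho G Θ x.1.1 = β0 → rho G Θ y.1.1 = β0 →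
          x.1.2 = y.1.2 := by
        intro x hx y hy h1 h2
        have e1 : hist x = x.1.2 := by
          simp only [hist]
          rw [← h1]
          exact x.2.2
        have e2 : hist y = y.1.2 := by
          simp only [hist]
          rw [← h2]
          exact y.2.2
        rw [← e1, ← e2, hall x hx, hall y hy]
      have hgood : Good G Θ Φ R e := by
        refine ⟨?_, ?_, ?_⟩
        · intro x hx y hy h
          by_cases h1 : rho G Θ x.1.1 = β0
          · by_cases h2 : rho G Θ y.1.1 = β0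
            · rw [heq x h1, heq y h2] at h
              exact node_ext G Θ h (hsame x hx y hy h1 h2)
            · exfalso
              rw [heq x h1, hne' y h2] at h
              have := (heX' y (hmem' y hy h2)).1
              apply this
              rw [← h, ← rho_le_iff]
              exact h1.le
          · by_cases h2 : rho G Θ y.1.1 = β0
            · exfalso
              rw [hne' x h1, heq y h2] at h
              have := (heX' x (hmem' x hx h1)).1
              apply this
              rw [h, ← rho_le_iff]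
              exact h2.le
            · rw [hne' x h1, hne' y h2] at h
              exact he'.1 (hmem' x hx h1) (hmem' y hy h2) h
        · intro x hx y hy h
          have hlt := low_rho G Θ h
          have h1 : ¬ rho G Θ x.1.1 = β0 := by
            intro h1
            rw [h1] at hlt
            exact absurd (hx0min y hy) (not_le.2 hlt)
          rw [hne' x h1]
          by_cases h2 : rho G Θ y.1.1 = β0
          · rw [heq y h2]
            apply he'.2.2 x (hmem' x hx h1)
            · apply Finset.mem_union_right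
              exact Finset.mem_image.2 ⟨y, Finset.mem_filter.2 ⟨hy, h2⟩, rfl⟩
            · exact h.2
          · rw [hne' y h2]
            exact he'.2.1 x (hmem' x hx h1) y (hmem' y hy h2) h
        · intro x hx u hu h
          by_cases h1 : rho G Θ x.1.1 = β0
          · rw [heq x h1]
            exact h.1.1.symm
          · rw [hne' x h1]
            exact he'.2.2 x (hmem' x hx h1) u (Finset.mem_union_left _ hu) h
      apply good_move G Θ Φ R β hR W hW e hgood
      intro x hx
      by_cases h1 : rho G Θ x.1.1 = β0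
      · rw [heq x h1, ← rho_le_iff, h1]
        exact not_le.2 hββ0
      · rw [hne' x h1]
        intro h
        exact (heX' x (hmem' x hx h1)).1 (Xs_mono G Θ hββ0.le h)
    · -- several classes
      have h1 : Φ1.card < n := by omega
      have h2 : Φ2.card < n := by omega
      obtain ⟨e2, he2, heX2⟩ := ih Φ2.card h2 Φ2 rfl β R W hR hW
        (fun x hx => hβ x (Finset.mem_filter.1 hx).1)
      have hκ : ℵ₀ ≤ kap Θ β := (aleph0_le_mk Θ).trans (le_max_left _ _)
      have hW' : #(W ∪ e2 '' (Φ2 : Set (Node G Θ)) : Set V) ≤ kap Θ β := by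
        refine (mk_union_le _ _).trans (add_le_of_le hκ hW ?_)
        exact (lt_aleph0_of_finite _).le.trans hκ
      obtain ⟨e1, he1, heX1⟩ := ih Φ1.card h1 Φ1 rfl β R (W ∪ e2 '' (Φ2 : Set (Node G Θ))) hR hW'
        (fun x hx => hβ x (Finset.mem_filter.1 hx).1)
      let e : Node G Θ → V := fun x => if x ∈ Φ1 then e1 x else e2 x
      have hin : ∀ x ∈ Φ1, e x = e1 x := fun x h => if_pos h
      have hout : ∀ x, x ∉ Φ1 → e x = e2 x := fun x h => if_neg h
      have hmem2 : ∀ x ∈ Φ, x ∉ Φ1 → x ∈ Φ2 := by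
        intro x hx h
        refine Finset.mem_filter.2 ⟨hx, fun h' => h (Finset.mem_filter.2 ⟨hx, h'⟩)⟩
      have hsep : ∀ x ∈ Φ1, ∀ y ∈ Φ2, e1 x ≠ e2 y := by
        intro x hx y hy h
        apply (heX1 x hx).2
        right
        exact ⟨y, hy, h.symm⟩
      refine ⟨e, ⟨?_, ?_, ?_⟩, ?_⟩
      · intro x hx y hy h
        by_cases h1 : x ∈ Φ1
        · by_cases h2 : y ∈ Φ1
          · rw [hin x h1, hin y h2] at h
            exact he1.1 h1 h2 h
          · rw [hin x h1, hout y h2] at h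
            exact absurd h (hsep x h1 y (hmem2 y hy h2))
        · by_cases h2 : y ∈ Φ1
          · rw [hout x h1, hin y h2] at h
            exact absurd h.symm (hsep y h2 x (hmem2 x hx h1))
          · rw [hout x h1, hout y h2] at h
            exact he2.1 (hmem2 x hx h1) (hmem2 y hy h2) h
      · intro x hx y hy h
        have hxy := hlow x hx y hy h
        by_cases h1 : x ∈ Φ1
        · have h2 : y ∈ Φ1 := Finset.mem_filter.2 ⟨hy, hxy.trans (Finset.mem_filter.1 h1).2⟩
          rw [hin x h1, hin y h2]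
          exact he1.2.1 x h1 y h2 h
        · have h2 : y ∉ Φ1 := fun h2 =>
            h1 (Finset.mem_filter.2 ⟨hx, hxy.symm.trans (Finset.mem_filter.1 h2).2⟩)
          rw [hout x h1, hout y h2]
          exact he2.2.1 x (hmem2 x hx h1) y (hmem2 y hy h2) h
      · intro x hx u hu h
        by_cases h1 : x ∈ Φ1
        · rw [hin x h1]
          exact he1.2.2 x h1 u hu h
        · rw [hout x h1]
          exact he2.2.2 x (hmem2 x hx h1) u hu h
      · intro x hx
        by_cases h1 : x ∈ Φ1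
        · rw [hin x h1]
          exact ⟨(heX1 x h1).1, fun h => (heX1 x h1).2 (Or.inl h)⟩
        · rw [hout x h1]
          exact heX2 x (hmem2 x hx h1)

/-- finite subgraphs of the tree graph embed into `G`, away from any given finite set -/
lemma treeGraph_embed (Φ : Finset (Node G Θ)) (W : Finset V) :
    ∃ e : Node G Θ → V, Set.InjOn e Φ ∧
      (∀ x ∈ Φ, ∀ y ∈ Φ, (treeGraph G Θ).Adj x y → G.Adj (e x) (e y)) ∧ ∀ x ∈ Φ, e x ∉ W := by
  classical
  rcases Φ.eq_empty_or_nonempty with h0 | hne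
  · subst h0
    exact ⟨fun x => x.1.1, by simp, by simp, by simp⟩
  have hVne : Nonempty V := ⟨hne.choose.1.1⟩
  let m0 : V := (wellFounded_lt (α := V)).min Set.univ Set.univ_nonempty
  have hm0 : ∀ v : V, m0 ≤ v := fun v =>
    not_lt.1 ((wellFounded_lt (α := V)).not_lt_min Set.univ (Set.mem_univ v))
  have hκ : ℵ₀ ≤ kap Θ m0 := (aleph0_le_mk Θ).trans (le_max_left _ _)
  obtain ⟨e, he, heX⟩ := embed_aux G Θ Φ.card Φ rfl m0 ∅ (W : Set V) (by simp)
    ((lt_aleph0_of_finite _).le.trans hκ) (fun x _ => by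
      obtain ⟨β, hβ⟩ := x.2.1
      exact lt_of_le_of_lt (hm0 β) hβ)
  refine ⟨e, he.1, ?_, fun x hx => (heX x hx).2⟩
  intro x hx y hy h
  rcases h with h | h
  · exact (he.2.1 y hy x hx h).symm
  · exact he.2.1 x hx y hy h

end Tree

/-! ### Packaging -/

/-- every finite part of `H` embeds into `G` away from any given finite set -/
def AvoidEmb {W V : Type} (H : SimpleGraph W) (G : SimpleGraph V) : Prop :=
  ∀ (Φ : Finset W) (F : Finset V), ∃ e : W → V, Set.InjOn e Φ ∧
    (∀ x ∈ Φ, ∀ y ∈ Φ, H.Adj x y → G.Adj (e x) (e y)) ∧ ∀ x ∈ Φ, e x ∉ F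

lemma exists_wellOrder (V : Type) : ∃ (_ : LinearOrder V) (_ : WellFoundedLT V),
    ∀ v : V, #(Iio v) < #V := by
  obtain ⟨hl, hw, h⟩ := exists_ord_eq_type_lt V
  exact ⟨hl, hw, fun v => mk_Iio_lt v h⟩

lemma mk_Iic_lt {V : Type} [LinearOrder V] (h : ∀ v : V, #(Iio v) < #V) (hV : ℵ₀ ≤ #V) (v : V) :
    #(Iic v) < #V := by
  have h1 : (Iic v : Set V) = Iio v ∪ {v} := by
    ext u
    simp [le_iff_lt_or_eq, or_comm]
  rw [h1]
  refine lt_of_le_of_lt (mk_union_le _ _) (add_lt_of_lt hV (h v) ?_)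
  rw [mk_singleton]
  exact one_lt_aleph0.trans_le hV

lemma exists_tree {V : Type} (G : SimpleGraph V) (Θ : Type) [Infinite Θ]
    (hG : IsEmpty (G.Coloring Θ)) :
    ∃ (W : Type) (H : SimpleGraph W), (∀ C : Type, #Θ < #C → Nonempty (H.Coloring C)) ∧
      IsEmpty (H.Coloring Θ) ∧ AvoidEmb H G := by
  classical
  -- a smallest subset which is not colourable
  let P : Set Cardinal.{0} := {c | ∃ S : Set V, #S = c ∧ IsEmpty ((G.induce S).Coloring Θ)}
  have hP : P.Nonempty := by
    refine ⟨_, Set.univ, rfl, ⟨fun c => hG.false ?_⟩⟩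
    exact c.comp (SimpleGraph.induceUnivIso G).symm.toHom
  obtain ⟨S, hS, hSc⟩ := csInf_mem hP
  have hmin : ∀ T : Set V, #T < #S → Nonempty ((G.induce T).Coloring Θ) := by
    intro T hT
    by_contra hcon
    rw [not_nonempty_iff] at hcon
    have : sInf P ≤ #T := csInf_le' ⟨T, rfl, hcon⟩
    rw [← hS] at this
    exact absurd hT (not_lt.2 this)
  have hlt : #Θ < #S := by
    by_contra h
    rw [not_lt, Cardinal.le_def] at h
    obtain ⟨f⟩ := h
    exact hSc.false (SimpleGraph.Coloring.mk f (fun {u v} huv h => huv.ne (f.injective h)))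
  have hinf : ℵ₀ ≤ #S := (aleph0_le_mk Θ).trans hlt.le
  obtain ⟨_, _, hIio⟩ := exists_wellOrder S
  have hmin' : ∀ T : Set S, #T < #S → Nonempty (((G.induce S).induce T).Coloring Θ) := by
    intro T hT
    have hT' : #(Subtype.val '' T : Set V) < #S := by
      rw [mk_image_eq Subtype.val_injective]
      exact hT
    obtain ⟨c⟩ := hmin _ hT'
    refine ⟨SimpleGraph.Coloring.mk (fun x => c ⟨x.1.1, ⟨x.1, x.2, rfl⟩⟩) ?_⟩
    intro x y hxy
    apply c.valid
    exact hxy
  have hsmall : ∀ v : S, kap Θ v < #S := by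
    intro v
    unfold kap
    rw [max_lt_iff]
    exact ⟨hlt, mk_Iic_lt hIio hinf v⟩
  refine ⟨Node (G.induce S) Θ, treeGraph (G.induce S) Θ, ?_, ?_, ?_⟩
  · intro C hC
    exact treeGraph_colorable _ _ C hC
  · exact treeGraph_not_colorable _ _ hmin' hsmall hSc
  · intro Φ F
    obtain ⟨e, h1, h2, h3⟩ := treeGraph_embed (G.induce S) Θ Φ (F.subtype (· ∈ S))
    refine ⟨fun x => (e x).1, ?_, ?_, ?_⟩
    · intro x hx y hy h
      exact h1 hx hy (Subtype.ext h)
    · intro x hx y hy h
      exact h2 x hx y hy h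
    · intro x hx h
      apply h3 x hx
      rw [Finset.mem_subtype]
      exact h

/-- disjoint union of a family of graphs -/
def sigmaGraph {ι : Type} {W : ι → Type} (H : ∀ i, SimpleGraph (W i)) :
    SimpleGraph (Σ i, W i) where
  Adj p q := ∃ (i : ι) (x y : W i), p = ⟨i, x⟩ ∧ q = ⟨i, y⟩ ∧ (H i).Adj x y
  symm := ⟨by
    rintro p q ⟨i, x, y, hp, hq, h⟩
    exact ⟨i, y, x, hq, hp, h.symm⟩⟩
  loopless := ⟨by
    rintro p ⟨i, x, y, hp, hq, h⟩
    rw [hp] at hq
    have : x = y := by simpa using hq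
    exact h.ne this⟩

lemma AvoidEmb.sigma {ι V : Type} {W : ι → Type} {H : ∀ i, SimpleGraph (W i)}
    {G : SimpleGraph V} (h : ∀ i, AvoidEmb (H i) G) : AvoidEmb (sigmaGraph H) G := by
  classical
  have key : ∀ (I : Finset ι) (Φ : Finset (Σ i, W i)) (_ : ∀ x ∈ Φ, x.1 ∈ I) (F : Finset V),
      ∃ e : (Σ i, W i) → V, Set.InjOn e Φ ∧
        (∀ x ∈ Φ, ∀ y ∈ Φ, (sigmaGraph H).Adj x y → G.Adj (e x) (e y)) ∧ ∀ x ∈ Φ, e x ∉ F := by
    intro I
    induction I using Finset.induction_on with
    | empty =>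
      intro Φ hΦ F
      have hΦ0 : Φ = ∅ := Finset.eq_empty_of_forall_notMem (fun x hx => by simpa using hΦ x hx)
      subst hΦ0
      by_cases hV : Nonempty V
      · exact ⟨fun _ => hV.some, by simp, by simp, by simp⟩
      · refine ⟨fun p => (h p.1 ∅ ∅).choose p.2, by simp, by simp, by simp⟩
    | insert a I ha ih =>
      intro Φ hΦ F
      let Φ1 := Φ.filter (fun x => x.1 = a)
      let Φ2 := Φ.filter (fun x => ¬ x.1 = a)
      obtain ⟨e2, h21, h22, h23⟩ := ih Φ2 (fun x hx => by
        have h1 := Finset.mem_filter.1 hx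
        have h2 := hΦ x h1.1
        rw [Finset.mem_insert] at h2
        exact h2.resolve_left h1.2) F
      let Ψ : Finset (W a) := Φ1.preimage (Sigma.mk a) (by
        intro x _ y _ hxy
        simpa using hxy)
      obtain ⟨e1, h11, h12, h13⟩ := h a Ψ (F ∪ Φ2.image e2)
      let e : (Σ i, W i) → V := fun p => if hp : p.1 = a then e1 (hp ▸ p.2) else e2 p
      have hin : ∀ x : W a, e ⟨a, x⟩ = e1 x := by
        intro x
        exact dif_pos rfl
      have hout : ∀ p : (Σ i, W i), p.1 ≠ a → e p = e2 p := fun p hp => dif_neg hp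
      have hmem2 : ∀ p ∈ Φ, p.1 ≠ a → p ∈ Φ2 := fun p hp hpa => Finset.mem_filter.2 ⟨hp, hpa⟩
      have hmem1 : ∀ x : W a, (⟨a, x⟩ : Σ i, W i) ∈ Φ → x ∈ Ψ := by
        intro x hx
        rw [Finset.mem_preimage]
        exact Finset.mem_filter.2 ⟨hx, rfl⟩
      refine ⟨e, ?_, ?_, ?_⟩
      · rintro ⟨i, x⟩ hx ⟨j, y⟩ hy hxy
        by_cases hi : i = a
        · subst hi
          by_cases hj : j = i
          · subst hj
            rw [hin, hin] at hxy
            rw [h11 (hmem1 x hx) (hmem1 y hy) hxy]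
          · exfalso
            rw [hin, hout ⟨j, y⟩ hj] at hxy
            apply h13 x (hmem1 x hx)
            rw [hxy]
            exact Finset.mem_union_right _ (Finset.mem_image_of_mem _ (hmem2 _ hy hj))
        · by_cases hj : j = a
          · exfalso
            subst hj
            rw [hin, hout ⟨i, x⟩ hi] at hxy
            apply h13 y (hmem1 y hy)
            rw [← hxy]
            exact Finset.mem_union_right _ (Finset.mem_image_of_mem _ (hmem2 _ hx hi))
          · rw [hout ⟨i, x⟩ hi, hout ⟨j, y⟩ hj] at hxy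
            exact h21 (hmem2 _ hx hi) (hmem2 _ hy hj) hxy
      · rintro p hp q hq ⟨i, x, y, rfl, rfl, hadj⟩
        by_cases hi : i = a
        · subst hi
          rw [hin, hin]
          exact h12 x (hmem1 x hp) y (hmem1 y hq) hadj
        · rw [hout ⟨i, x⟩ hi, hout ⟨i, y⟩ hi]
          exact h22 _ (hmem2 _ hp hi) _ (hmem2 _ hq hi) ⟨i, x, y, rfl, rfl, hadj⟩
      · rintro ⟨i, x⟩ hx
        by_cases hi : i = a
        · subst hi
          rw [hin]
          exact fun h => h13 x (hmem1 x hx) (Finset.mem_union_left _ h)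
        · rw [hout ⟨i, x⟩ hi]
          exact h23 _ (hmem2 _ hx hi)
  intro Φ F
  exact key (Φ.image Sigma.fst) Φ (fun x hx => Finset.mem_image_of_mem _ hx) F

/-- **Exactness.** If `G` has no colouring with fewer than `κ` colours, `κ` infinite, then there
is a graph `H` of chromatic number exactly `κ` all of whose finite parts embed into `G`. -/
theorem exact_graph {V : Type} (G : SimpleGraph V) (κ : Cardinal.{0}) (hκ : ℵ₀ ≤ κ)
    (hG : ∀ β : Type, #β < κ → IsEmpty (G.Coloring β)) :
    ∃ (W : Type) (H : SimpleGraph W), (∃ α : Type, #α = κ ∧ Nonempty (H.Coloring α)) ∧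
      (∀ β : Type, #β < κ → IsEmpty (H.Coloring β)) ∧
      ∀ Φ : Finset W, ∃ e : W → V, Set.InjOn e Φ ∧
        ∀ x ∈ Φ, ∀ y ∈ Φ, H.Adj x y → G.Adj (e x) (e y) := by
  classical
  rcases hκ.eq_or_lt with h0 | h0
  · -- countable case
    subst h0
    have h1 : ∀ n : ℕ, ∃ S : Set V, S.Finite ∧ IsEmpty ((G.induce S).Coloring (Fin n)) := by
      intro n
      by_contra hcon
      push Not at hcon
      have hn : IsEmpty (G.Coloring (Fin n)) := hG (Fin n) (by rw [mk_fin]; exact natCast_lt_aleph0)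
      apply hn.false
      have := SimpleGraph.nonempty_hom_of_forall_finite_subgraph_hom (G := G)
        (F := (⊤ : SimpleGraph (Fin n))) (fun G' hG' => by
          have c := (hcon G'.verts hG').some
          exact SimpleGraph.Coloring.mk (fun x => c x) (fun {u v} huv => by
            apply c.valid
            exact G'.adj_sub huv))
      exact this.some
    choose S hSfin hS using h1
    let U : Set V := ⋃ n, S n
    have hU : #U ≤ ℵ₀ := by
      rw [le_aleph0_iff_set_countable]
      exact countable_iUnion (fun n => (hSfin n).countable)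
    refine ⟨U, G.induce U, ?_, ?_, ?_⟩
    · refine ⟨ℕ, mk_nat, ?_⟩
      rw [← mk_nat, Cardinal.le_def] at hU
      obtain ⟨f⟩ := hU
      exact ⟨SimpleGraph.Coloring.mk f (fun {u v} huv h => huv.ne (f.injective h))⟩
    · intro β hβ
      rw [lt_aleph0_iff_finite] at hβ
      constructor
      intro c
      have e := Finite.equivFin β
      apply (hS (Nat.card β)).false
      refine SimpleGraph.Coloring.mk (fun x => e (c ⟨x.1, mem_iUnion.2 ⟨_, x.2⟩⟩)) ?_
      intro u v huv h
      have h2 := e.injective h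
      exact c.valid (show (G.induce U).Adj ⟨u.1, _⟩ ⟨v.1, _⟩ from huv) h2
    · intro Φ
      exact ⟨Subtype.val, Subtype.val_injective.injOn, fun x _ y _ h => h⟩
  · -- uncountable case
    let I := κ.ord.ToType
    let Θ : I → Type := fun i => (Iio i) ⊕ ℕ
    have hΘ : ∀ i, #(Θ i) < κ := by
      intro i
      rw [mk_sum, lift_id, lift_id, mk_nat]
      apply add_lt_of_lt hκ _ h0
      have h1 : #I = κ := mk_ord_toType κ
      have h2 := mk_Iio_lt i (by rw [h1]; exact (Ordinal.type_toType _).symm)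
      rw [h1] at h2
      exact h2
    have hT : ∀ i, ∃ (W : Type) (H : SimpleGraph W),
        (∀ C : Type, #(Θ i) < #C → Nonempty (H.Coloring C)) ∧
        IsEmpty (H.Coloring (Θ i)) ∧ AvoidEmb H G := by
      intro i
      exact exists_tree G (Θ i) (hG _ (hΘ i))
    choose W H hcol hncol hemb using hT
    refine ⟨Σ i, W i, sigmaGraph H, ?_, ?_, ?_⟩
    · refine ⟨κ.out, mk_out κ, ?_⟩
      have hc : ∀ i, Nonempty ((H i).Coloring κ.out) := fun i =>
        hcol i κ.out (by rw [mk_out]; exact hΘ i)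
      refine ⟨SimpleGraph.Coloring.mk (fun p => (hc p.1).some p.2) ?_⟩
      rintro p q ⟨i, x, y, rfl, rfl, hadj⟩
      exact ((hc i).some).valid hadj
    · intro β hβ
      constructor
      intro c
      have ho : (#β).ord < Ordinal.type (α := I) (· < ·) := by
        rw [Ordinal.type_toType]
        exact ord_lt_ord.2 hβ
      obtain ⟨i, hi⟩ := Ordinal.typein_surj (α := I) (· < ·) ho
      have hcard : #β ≤ #(Θ i) := by
        have h2 := congrArg Ordinal.card hi
        rw [card_ord, Ordinal.card_typein] at h2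
        rw [mk_sum, lift_id, lift_id, ← h2]
        exact le_self_add
      rw [Cardinal.le_def] at hcard
      obtain ⟨f⟩ := hcard
      apply (hncol i).false
      refine SimpleGraph.Coloring.mk (fun x => f (c ⟨i, x⟩)) ?_
      intro x y hxy h
      exact c.valid (show (sigmaGraph H).Adj ⟨i, x⟩ ⟨i, y⟩ from ⟨i, x, y, rfl, rfl, hxy⟩)
        (f.injective h)
    · intro Φ
      obtain ⟨e, h1, h2, _⟩ := AvoidEmb.sigma hemb Φ ∅
      exact ⟨e, h1, h2⟩

end Pool.Agent.LibAdmissible
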